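import Pool.Agent.H30.Complete

set_option autoImplicit false

namespace Pool.Agent.Results.MP_04ec84_gt.Midpoints

open Set Metric RealInnerProductSpace Pool.Agent.H30

/-- Sets of constant width one. -/
def ConstWidth {d : ℕ} (K : Set (EuclideanSpace ℝ (Fin d))) : Prop :=
  IsCompact K ∧ Convex ℝ K ∧ ∀ u : EuclideanSpace ℝ (Fin d), ‖u‖ = 1 →
    sSup ((fun x => inner ℝ u x) '' K) - sInf ((fun x => inner ℝ u x) '' K) = 1

/-- Midpoints of the diametral chords. -/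
def Mid {d : ℕ} (K : Set (EuclideanSpace ℝ (Fin d))) : Set (EuclideanSpace ℝ (Fin d)) :=
  {m | ∃ x ∈ K, ∃ y ∈ K, dist x y = 1 ∧ m = (1 / 2 : ℝ) • (x + y)}

lemma alg {P Q R A B : ℝ} (h1 : P + Q = 1) (h2 : R * P * Q = A ^ 2 * Q + B ^ 2 * P)
    (h3 : R + 2 * A ≤ Q) (h4 : R - 2 * A ≤ Q) (h5 : R + 2 * B ≤ P) (h6 : R - 2 * B ≤ P) :
    R ≤ 1 / 4 := by
  by_contra hn
  push Not at hn
  have a1 : (2 * A) ^ 2 ≤ (Q - 1 / 4) ^ 2 := sq_le_sq' (by linarith) (by linarith)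
  have a2 : (2 * B) ^ 2 ≤ (P - 1 / 4) ^ 2 := sq_le_sq' (by linarith) (by linarith)
  have hP : 1 / 4 < P := by linarith
  have hQ : 1 / 4 < Q := by linarith
  have a3 := mul_le_mul_of_nonneg_right a1 (show 0 ≤ Q by linarith)
  have a4 := mul_le_mul_of_nonneg_right a2 (show 0 ≤ P by linarith)
  have a5 := mul_lt_mul_of_pos_right hn (mul_pos (show 0 < P by linarith) (show 0 < Q by linarith))
  obtain rfl : Q = 1 - P := by linarith
  nlinarith [mul_pos (sub_pos.2 hP) (sub_pos.2 hQ)]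

lemma upper {d : ℕ} {K : Set (EuclideanSpace ℝ (Fin d))} (hK : ∀ x ∈ K, ∀ y ∈ K, dist x y ≤ 1)
    {p q : EuclideanSpace ℝ (Fin d)} (hp : p ∈ Mid K) (hq : q ∈ Mid K) :
    dist p q ≤ if d = 2 then 1 / 2 else √2 / 2 := by
  obtain ⟨a, ha, b, hb, h1, rfl⟩ := hp
  obtain ⟨c, hc, e, he, h2, rfl⟩ := hq
  have k : ∀ x ∈ K, ∀ y ∈ K, dist x y ^ 2 ≤ 1 := fun x hx y hy =>
    pow_le_one₀ dist_nonneg (hK x hx y hy)
  have k1 := k a ha c hc
  have k2 := k a ha e he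
  have k3 := k b hb c hc
  have k4 := k b hb e he
  have k5 : dist a b ^ 2 = 1 := by simp [h1]
  have k6 : dist c e ^ 2 = 1 := by simp [h2]
  split_ifs with h
  · subst h
    refine abs_le_of_sq_le_sq' ?_ (by norm_num) |>.2
    simp only [EuclideanSpace.dist_sq_eq, Fin.sum_univ_two, Real.dist_eq, sq_abs, PiLp.smul_apply,
      PiLp.add_apply, smul_eq_mul] at k1 k2 k3 k4 k5 k6 ⊢
    set m0 := 1 / 2 * (a 0 + b 0) - 1 / 2 * (c 0 + e 0) with hm0
    set m1 := 1 / 2 * (a 1 + b 1) - 1 / 2 * (c 1 + e 1) with hm1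
    set s0 := (a 0 - b 0 + (c 0 - e 0)) / 2 with hs0
    set s1 := (a 1 - b 1 + (c 1 - e 1)) / 2 with hs1
    set t0 := (a 0 - b 0 - (c 0 - e 0)) / 2 with ht0
    set t1 := (a 1 - b 1 - (c 1 - e 1)) / 2 with ht1
    have o : s0 * t0 + s1 * t1 = 0 := by
      rw [hs0, hs1, ht0, ht1]; linear_combination k5 / 4 - k6 / 4
    have n : s0 ^ 2 + s1 ^ 2 + (t0 ^ 2 + t1 ^ 2) = 1 := by
      rw [hs0, hs1, ht0, ht1]; linear_combination k5 / 2 + k6 / 2
    have e1 : (a 0 - c 0) ^ 2 + (a 1 - c 1) ^ 2 = (m0 + t0) ^ 2 + (m1 + t1) ^ 2 := by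
      rw [hm0, hm1, ht0, ht1]; ring
    have e2 : (a 0 - e 0) ^ 2 + (a 1 - e 1) ^ 2 = (m0 + s0) ^ 2 + (m1 + s1) ^ 2 := by
      rw [hm0, hm1, hs0, hs1]; ring
    have e3 : (b 0 - c 0) ^ 2 + (b 1 - c 1) ^ 2 = (m0 - s0) ^ 2 + (m1 - s1) ^ 2 := by
      rw [hm0, hm1, hs0, hs1]; ring
    have e4 : (b 0 - e 0) ^ 2 + (b 1 - e 1) ^ 2 = (m0 - t0) ^ 2 + (m1 - t1) ^ 2 := by
      rw [hm0, hm1, ht0, ht1]; ring
    have := alg (R := m0 ^ 2 + m1 ^ 2) (A := m0 * s0 + m1 * s1) (B := m0 * t0 + m1 * t1) n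
      (by linear_combination ((m0 ^ 2 + m1 ^ 2) * (s0 * t0 + s1 * t1) -
        2 * (m0 * s0 + m1 * s1) * (m0 * t0 + m1 * t1)) * o)
      (by linarith) (by linarith) (by linarith) (by linarith)
    linarith
  · refine abs_le_of_sq_le_sq' ?_ (by positivity) |>.2
    have : 4 * dist ((1 / 2 : ℝ) • (a + b)) ((1 / 2 : ℝ) • (c + e)) ^ 2 + dist a b ^ 2 +
        dist c e ^ 2 = dist a c ^ 2 + dist a e ^ 2 + dist b c ^ 2 + dist b e ^ 2 := by
      simp only [EuclideanSpace.dist_sq_eq, Real.dist_eq, sq_abs, PiLp.smul_apply,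
        PiLp.add_apply, smul_eq_mul, Finset.mul_sum, ← Finset.sum_add_distrib]
      exact Finset.sum_congr rfl fun i _ => by ring
    rw [div_pow, Real.sq_sqrt zero_le_two]
    linarith

lemma lower {d : ℕ} {a b c e : EuclideanSpace ℝ (Fin d)} (h1 : dist a b = 1) (h2 : dist c e = 1)
    (k1 : dist a c ≤ 1) (k2 : dist a e ≤ 1) (k3 : dist b c ≤ 1) (k4 : dist b e ≤ 1)
    (h : dist ((1 / 2 : ℝ) • (a + b)) ((1 / 2 : ℝ) • (c + e)) = if d = 2 then 1 / 2 else √2 / 2) :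
    ∃ K : Set (EuclideanSpace ℝ (Fin d)), ConstWidth K ∧
      diam (Mid K) = if d = 2 then 1 / 2 else √2 / 2 := by
  obtain ⟨K, a1, a2, a3, a4, a5⟩ := completion (S := {a, b, c, e}) (by
    rintro x (rfl | rfl | rfl | rfl) y (rfl | rfl | rfl | rfl) <;>
      first | simp | linarith | (rw [dist_comm]; linarith)) ⟨a, by simp⟩
  have h0 : (0 : ℝ) ≤ if d = 2 then 1 / 2 else √2 / 2 := h ▸ dist_nonneg
  refine ⟨K, ⟨a2, a3, a5⟩, (diam_le_of_forall_dist_le h0 fun _ hp _ hq => upper a4 hp hq).antisymm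
    (h.ge.trans (dist_le_diam_of_mem (isBounded_iff.2 ⟨_, fun _ hp _ hq => upper a4 hp hq⟩)
      ⟨a, a1 (by simp), b, a1 (by simp), h1, rfl⟩ ⟨c, a1 (by simp), e, a1 (by simp), h2, rfl⟩))⟩

/-- The largest diameter of the midpoint set of diametral chords is `1/2` in the plane and
`√2/2` in every higher dimension. -/
theorem result (d : ℕ) (hd : 2 ≤ d) :
    IsGreatest {r : ℝ | ∃ K : Set (EuclideanSpace ℝ (Fin d)), ConstWidth K ∧
      Metric.diam (Mid K) = r} (if d = 2 then 1 / 2 else Real.sqrt 2 / 2) := by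
  refine ⟨?_, ?_⟩
  · have sq : ∀ {x r : ℝ}, 0 ≤ x → 0 ≤ r → x ^ 2 = r ^ 2 → x = r := fun h1 h2 h =>
      (sq_eq_sq₀ h1 h2).1 h
    rcases hd.eq_or_lt with rfl | h
    · have s3 : √3 ^ 2 = 3 := Real.sq_sqrt (by norm_num)
      refine lower (a := 0) (b := !₂[1, 0]) (c := 0) (e := !₂[1 / 2, √3 / 2])
        (sq dist_nonneg zero_le_one ?_) (sq dist_nonneg zero_le_one ?_) (by simp)
        (sq dist_nonneg zero_le_one ?_).le (sq dist_nonneg zero_le_one ?_).le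
        (sq dist_nonneg zero_le_one ?_).le (sq dist_nonneg (by norm_num) ?_) <;>
      rw [EuclideanSpace.dist_sq_eq] <;> simp [Real.dist_eq] <;> nlinarith
    · obtain ⟨n, rfl⟩ : ∃ n, d = n + 3 := ⟨d - 3, by omega⟩
      have s2 : √2 ^ 2 = 2 := Real.sq_sqrt (by norm_num)
      let v : ℝ → ℝ → ℝ → EuclideanSpace ℝ (Fin (n + 3)) := fun x y z =>
        WithLp.toLp 2 (Fin.cons x (Fin.cons y (Fin.cons z 0)))
      have hv : ∀ x y z x' y' z', dist (v x y z) (v x' y' z') ^ 2 =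
          (x - x') ^ 2 + (y - y') ^ 2 + (z - z') ^ 2 := by
        intros
        simp [v, EuclideanSpace.dist_sq_eq, Fin.sum_univ_succ, Real.dist_eq, add_assoc]
      have hm : ∀ x y z x' y' z', (1 / 2 : ℝ) • (v x y z + v x' y' z') =
          v ((x + x') / 2) ((y + y') / 2) ((z + z') / 2) := by
        intros
        ext i
        refine Fin.cases ?_ (fun i => Fin.cases ?_ (fun i => Fin.cases ?_ (fun i => ?_) i) i) i <;>
          simp only [v, PiLp.smul_apply, PiLp.add_apply, Fin.cons_zero, Fin.cons_succ, smul_eq_mul,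
            Pi.zero_apply] <;> ring
      refine lower (a := v (1 / 2) 0 0) (b := v (-1 / 2) 0 0) (c := v 0 (1 / 2) (√2 / 2))
        (e := v 0 (-1 / 2) (√2 / 2))
        (sq dist_nonneg zero_le_one ?_) (sq dist_nonneg zero_le_one ?_)
        (sq dist_nonneg zero_le_one ?_).le
        (sq dist_nonneg zero_le_one ?_).le (sq dist_nonneg zero_le_one ?_).le
        (sq dist_nonneg zero_le_one ?_).le (sq dist_nonneg (by positivity) ?_) <;>
      simp only [hm, hv, if_neg (show n + 3 ≠ 2 by omega)] <;> nlinarith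
  · rintro _ ⟨K, hK, rfl⟩
    exact diam_le_of_forall_dist_le (by positivity) fun _ hp _ hq =>
      upper (fun _ hx _ hy => dist_le_of_width hK.1 hK.2.2 hx hy) hp hq

end Pool.Agent.Results.MP_04ec84_gt.Midpoints
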